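import Mathlib

/-!
The function `L(x, a₁) - ψ(x + 1)` is not completely monotonic on `(-1, ∞)`.
-/

namespace Pool.Agent.Results.MP_d2a7e5_an.NotCM

open Real Set

/-- The digamma function `Γ' / Γ` on the reals. -/
noncomputable def psi (x : ℝ) : ℝ := deriv Real.Gamma x / Real.Gamma x

/-- The approximation `L(x, a)`. -/
noncomputable def LL (x a : ℝ) : ℝ :=
  1 / (90 * a ^ 2 + 2) * Real.log (x ^ 2 + x + (3 * a + 1) / 3) +
    45 * a ^ 2 / (90 * a ^ 2 + 2) * Real.log (x ^ 2 + x + (15 * a - 1) / (45 * a))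

/-- The parameter `a₁`. -/
noncomputable def a1 : ℝ := (40 + 3 * Real.sqrt 205) / 105

/-- The function `G(x) = L(x, a₁) - ψ(x + 1)`. -/
noncomputable def G (x : ℝ) : ℝ := LL x a1 - psi (x + 1)

theorem analytic_Gamma {x : ℝ} (hx : 0 < x) : AnalyticAt ℝ Real.Gamma x := by
  have h : AnalyticAt ℂ Complex.Gamma (x : ℂ) := by
    have hU : IsOpen {z : ℂ | 0 < z.re} := isOpen_lt continuous_const Complex.continuous_re
    refine DifferentiableOn.analyticAt (s := {z : ℂ | 0 < z.re}) ?_ (hU.mem_nhds hx)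
    intro z hz
    refine (Complex.differentiableAt_Gamma z fun m hm => ?_).differentiableWithinAt
    have h1 : 0 < z.re := hz
    rw [hm] at h1
    simp at h1
    exact absurd h1 (not_lt.2 (Nat.cast_nonneg m))
  exact h.re_ofReal

theorem psi_add_one {x : ℝ} (hx : 0 < x) : psi (x + 1) = psi x + 1 / x := by
  have hG := (analytic_Gamma hx).differentiableAt.hasDerivAt
  have h1 : HasDerivAt (fun y => y * Real.Gamma y) (1 * Real.Gamma x + x * deriv Real.Gamma x) x :=
    (hasDerivAt_id x).mul hG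
  have h2 : HasDerivAt (fun y => Real.Gamma (y + 1)) (deriv Real.Gamma (x + 1)) x :=
    (analytic_Gamma (by linarith : 0 < x + 1)).differentiableAt.hasDerivAt.comp_add_const x 1
  have h3 : (fun y => Real.Gamma (y + 1)) =ᶠ[nhds x] fun y => y * Real.Gamma y := by
    filter_upwards [Ioi_mem_nhds hx] with y hy
    exact Real.Gamma_add_one (ne_of_gt hy)
  have h4 := (h1.congr_of_eventuallyEq h3).unique h2
  have h5 := (Real.Gamma_pos_of_pos hx).ne'
  unfold psi
  rw [← h4, Real.Gamma_add_one hx.ne']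
  field_simp
  ring

theorem a1_bounds : 0.79 < a1 ∧ a1 < 0.7901 := by
  have h1 : (14.317 : ℝ) < Real.sqrt 205 := Real.lt_sqrt_of_sq_lt (by norm_num)
  have h2 : Real.sqrt 205 < 14.318 := (Real.sqrt_lt' (by norm_num)).2 (by norm_num)
  unfold a1
  constructor <;> linarith

noncomputable def b1 : ℝ := a1 + 1 / 12
noncomputable def b2 : ℝ := 1 / 12 - 1 / (45 * a1)
noncomputable def w1 : ℝ := 1 / (90 * a1 ^ 2 + 2)
noncomputable def w2 : ℝ := 45 * a1 ^ 2 / (90 * a1 ^ 2 + 2)

theorem b1_pos : 0 < b1 := by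
  have := a1_bounds.1
  unfold b1
  linarith

theorem b2_bounds : 0 < b2 ∧ b2 < 0.0553 := by
  obtain ⟨h1, h2⟩ := a1_bounds
  have h3 : 1 / (45 * a1) < 1 / 12 := one_div_lt_one_div_of_lt (by norm_num) (by linarith)
  have h4 : 1 / (45 * 0.7901 : ℝ) < 1 / (45 * a1) :=
    one_div_lt_one_div_of_lt (by linarith) (by linarith)
  unfold b2
  constructor
  · linarith
  · norm_num at h4 ⊢
    linarith

theorem LL_eq (x : ℝ) :
    LL x a1 = w1 * Real.log ((x + 1 / 2) ^ 2 + b1) + w2 * Real.log ((x + 1 / 2) ^ 2 + b2) := by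
  have h := a1_bounds.1
  have h0 : a1 ≠ 0 := by linarith
  have e1 : x ^ 2 + x + (3 * a1 + 1) / 3 = (x + 1 / 2) ^ 2 + b1 := by unfold b1; ring
  have e2 : x ^ 2 + x + (15 * a1 - 1) / (45 * a1) = (x + 1 / 2) ^ 2 + b2 := by
    unfold b2; field_simp; ring
  unfold LL w1 w2
  rw [e1, e2]

theorem analytic_G {x : ℝ} (hx : -1 < x) : AnalyticAt ℝ G x := by
  have hG : AnalyticAt ℝ Real.Gamma (x + 1) := analytic_Gamma (by linarith)
  have hp : AnalyticAt ℝ psi (x + 1) :=
    hG.deriv.div hG (Real.Gamma_pos_of_pos (by linarith)).ne'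
  have hp2 : AnalyticAt ℝ (fun y => psi (y + 1)) x :=
    AnalyticAt.comp (f := fun y : ℝ => y + 1) hp (by fun_prop)
  have hl : ∀ b : ℝ, 0 < b → AnalyticAt ℝ (fun y : ℝ => Real.log ((y + 1 / 2) ^ 2 + b)) x :=
    fun b hb => AnalyticAt.log (by fun_prop) (by positivity)
  have e : G = fun y => w1 * Real.log ((y + 1 / 2) ^ 2 + b1) +
      w2 * Real.log ((y + 1 / 2) ^ 2 + b2) - psi (y + 1) := by
    funext y
    unfold G
    rw [LL_eq]
  rw [e]
  exact ((analyticAt_const.mul (hl _ b1_pos)).add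
    (analyticAt_const.mul (hl _ b2_bounds.1))).sub hp2

theorem hasDeriv_D (n : ℕ) {x : ℝ} (hx : -1 < x) :
    HasDerivAt (iteratedDeriv n G) (iteratedDeriv (n + 1) G x) x := by
  rw [iteratedDeriv_succ, iteratedDeriv_eq_iterate]
  exact ((analytic_G hx).iterated_deriv n).differentiableAt.hasDerivAt

/-- Derivatives of `log (y ^ 2 + b)`. -/
noncomputable def ell (b : ℝ) : ℕ → ℝ → ℝ
  | 0, y => Real.log (y ^ 2 + b)
  | 1, y => 2 * y / (y ^ 2 + b)
  | 2, y => 2 * (b - y ^ 2) / (y ^ 2 + b) ^ 2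
  | 3, y => 4 * y * (y ^ 2 - 3 * b) / (y ^ 2 + b) ^ 3
  | _, y => -12 * (y ^ 4 - 6 * b * y ^ 2 + b ^ 2) / (y ^ 2 + b) ^ 4

theorem ell_deriv {b : ℝ} (hb : 0 < b) (n : ℕ) (hn : n < 4) (y : ℝ) :
    HasDerivAt (ell b n) (ell b (n + 1) y) y := by
  have hq : y ^ 2 + b ≠ 0 := by positivity
  have h0 : HasDerivAt (fun y : ℝ => y ^ 2 + b) (2 * y) y := by
    simpa using (hasDerivAt_pow 2 y).add_const b
  interval_cases n
  · exact h0.log hq
  · have h1 : HasDerivAt (fun y : ℝ => 2 * y) 2 y := by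
      simpa using (hasDerivAt_id y).const_mul 2
    refine (h1.div h0 hq).congr_deriv ?_
    simp only [ell]
    field_simp
    ring
  · have h1 : HasDerivAt (fun y : ℝ => 2 * (b - y ^ 2)) (2 * (-(2 * y))) y := by
      simpa using ((hasDerivAt_pow 2 y).const_sub b).const_mul 2
    refine (h1.div (h0.pow 2) (pow_ne_zero 2 hq)).congr_deriv ?_
    simp only [ell, Pi.pow_apply]
    field_simp
    ring
  · have h1 : HasDerivAt (fun y : ℝ => 4 * y * (y ^ 2 - 3 * b))
        (4 * (y ^ 2 - 3 * b) + 4 * y * (2 * y)) y := by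
      have h2 : HasDerivAt (fun y : ℝ => 4 * y) 4 y := by
        simpa using (hasDerivAt_id y).const_mul 4
      have h3 : HasDerivAt (fun y : ℝ => y ^ 2 - 3 * b) (2 * y) y := by
        simpa using (hasDerivAt_pow 2 y).sub_const (3 * b)
      exact h2.mul h3
    refine (h1.div (h0.pow 3) (pow_ne_zero 3 hq)).congr_deriv ?_
    simp only [ell, Pi.pow_apply]
    field_simp
    ring

noncomputable def rr (n : ℕ) (y : ℝ) : ℝ := (-1) ^ n * (n.factorial : ℝ) / y ^ (n + 1)

theorem rr_deriv (n : ℕ) {y : ℝ} (hy : 0 < y) : HasDerivAt (rr n) (rr (n + 1) y) y := by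
  have h := (hasDerivAt_const y ((-1) ^ n * (n.factorial : ℝ))).div (hasDerivAt_pow (n + 1) y)
    (pow_ne_zero _ hy.ne')
  refine h.congr_deriv ?_
  unfold rr
  rw [Nat.factorial_succ]
  push_cast
  field_simp
  ring

noncomputable def hh (n : ℕ) (x : ℝ) : ℝ :=
  w1 * (ell b1 n (x + 1 / 2) - ell b1 n (x + 3 / 2)) +
    w2 * (ell b2 n (x + 1 / 2) - ell b2 n (x + 3 / 2)) + rr n (x + 1)

theorem hh_deriv (n : ℕ) (hn : n < 4) {x : ℝ} (hx : -1 < x) :
    HasDerivAt (hh n) (hh (n + 1) x) x :=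
  (((((ell_deriv b1_pos n hn _).comp_add_const x _).sub
    ((ell_deriv b1_pos n hn _).comp_add_const x _)).const_mul w1).add
    ((((ell_deriv b2_bounds.1 n hn _).comp_add_const x _).sub
    ((ell_deriv b2_bounds.1 n hn _).comp_add_const x _)).const_mul w2)).add
    ((rr_deriv n (by linarith : 0 < x + 1)).comp_add_const x 1)

theorem diff_eq (n : ℕ) (hn : n ≤ 4) :
    ∀ x : ℝ, -1 < x → iteratedDeriv n G x - iteratedDeriv n G (x + 1) = hh n x := by
  induction n with
  | zero =>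
    intro x hx
    simp only [iteratedDeriv_zero, G, LL_eq, hh, ell, rr]
    rw [psi_add_one (by linarith : 0 < x + 1), show x + 1 + 1 / 2 = x + 3 / 2 by ring]
    simp
    ring
  | succ n ih =>
    intro x hx
    have h1 := (hasDeriv_D n hx).sub
      ((hasDeriv_D n (by linarith : -1 < x + 1)).comp_add_const x 1)
    have h2 := hh_deriv n (by omega) hx
    refine (h1.congr_of_eventuallyEq ?_).unique h2
    filter_upwards [Ioi_mem_nhds hx] with y hy
    exact (ih (by omega) y hy).symm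

theorem hh_neg : hh 4 (-1 / 2) < 0 := by
  obtain ⟨ha1, ha2⟩ := a1_bounds
  obtain ⟨hb1, hb2⟩ := b2_bounds
  have hb := b1_pos
  have hw1 : 0 < w1 := by unfold w1; positivity
  have hw1' : w1 < 1 := by
    unfold w1
    rw [div_lt_one (by positivity)]
    nlinarith
  have hw2 : 0.48 < w2 := by
    unfold w2
    rw [lt_div_iff₀ (by positivity)]
    nlinarith
  have hw2' : w2 < 1 := by
    unfold w2
    rw [div_lt_one (by positivity)]
    nlinarith
  have k1 : ∀ b : ℝ, 0 < b → -12 ≤ ell b 4 1 := by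
    intro b hb
    simp only [ell]
    rw [le_div_iff₀ (by positivity)]
    nlinarith [pow_pos hb 2, pow_pos hb 3, pow_pos hb 4]
  have k0 : ∀ b : ℝ, 0 < b → ell b 4 0 = -12 / b ^ 2 := by
    intro b hb
    simp only [ell]
    field_simp
    ring
  have k2 : ell b1 4 0 ≤ 0 := by
    rw [k0 _ hb]
    exact div_nonpos_of_nonpos_of_nonneg (by norm_num) (by positivity)
  have k3 : ell b2 4 0 ≤ -3900 := by
    rw [k0 _ hb1, div_le_iff₀ (by positivity)]
    nlinarith
  have k4 : rr 4 (1 / 2) = 768 := by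
    unfold rr
    norm_num [Nat.factorial]
  unfold hh
  rw [show (-1 / 2 + 1 / 2 : ℝ) = 0 by norm_num, show (-1 / 2 + 3 / 2 : ℝ) = 1 by norm_num,
    show (-1 / 2 + 1 : ℝ) = 1 / 2 by norm_num, k4]
  have k5 := k1 _ hb
  have k6 := k1 _ hb1
  nlinarith

theorem result : ∃ (n : ℕ) (x : ℝ), -1 < x ∧ (-1) ^ n * iteratedDeriv n G x < 0 := by
  by_contra hc
  push Not at hc
  have hanti : AntitoneOn (iteratedDeriv 4 G) (Ioi (-1)) := by
    refine antitoneOn_of_deriv_nonpos (convex_Ioi _)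
      (fun x hx => (hasDeriv_D 4 hx).continuousAt.continuousWithinAt) ?_ ?_
    · rw [interior_Ioi]
      exact fun x hx => (hasDeriv_D 4 hx).differentiableAt.differentiableWithinAt
    · rw [interior_Ioi]
      intro x hx
      rw [(hasDeriv_D 4 hx).deriv]
      have := hc 5 x hx
      norm_num at this ⊢
      exact this
  have h1 := hanti (show (-1 / 2 : ℝ) ∈ Ioi (-1) by norm_num)
    (show (-1 / 2 + 1 : ℝ) ∈ Ioi (-1) by norm_num) (by norm_num)
  have h2 := diff_eq 4 le_rfl (-1 / 2) (by norm_num)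
  have h3 := hh_neg
  linarith

end Pool.Agent.Results.MP_d2a7e5_an.NotCM
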